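import Pool.Agent.helper96.Slope.Defs

set_option linter.all false

/-! module BI of MP_bf63dc_nt.SlopeTuples: bilinear forms (from the large sieve). -/

namespace Pool.Agent.helper96.Slope

open Finset Pool.Agent.Lib.BrunHooley

open Classical in
/-- the conclusion of module LS (abbreviation used by module BI only). -/
def LSBound (C : ℝ) (E : ℕ) : Prop := 0 < C ∧ ∀ (r x H N M : ℕ) (𝒜 : Finset ℕ) (α : ℕ → ℂ),
    Fam 𝒜 N M → (Z r) ^ E * N ^ 5 ≤ H → (∀ m ∈ Ioc x (x + H), α m ≠ 0 → Rough r m) →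
    ∑ a ∈ 𝒜, ∑ χ : DirichletCharacter ℂ a,
      (if χ = 1 then 0 else ‖∑ m ∈ Ioc x (x + H), α m * χ m‖ ^ 2)
      ≤ C * M * (H / Real.log (Z r)) * ∑ m ∈ Ioc x (x + H), ‖α m‖ ^ 2

lemma h68_coprime {r m a : ℕ} (ha : 0 < a) (haZ : a ≤ Z r) (hm : Rough r m) : Nat.Coprime m a := by
  by_contra h
  rw [Nat.Prime.not_coprime_iff_dvd] at h
  obtain ⟨p, hp, hpm, hpa⟩ := h
  exact hm p (Nat.mem_primesLE.mpr ⟨(Nat.le_of_dvd ha hpa).trans haZ, hp⟩) hpm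

lemma h68_isUnit {a : ℕ} {c : ℤ} (h : IsCoprime c (a : ℤ)) : IsUnit (c : ZMod a) := by
  obtain ⟨u, v, h⟩ := h
  have h2 := congrArg (Int.cast : ℤ → ZMod a) h
  push_cast at h2
  rw [ZMod.natCast_self, mul_zero, add_zero] at h2
  exact IsUnit.of_mul_eq_one_right _ h2

lemma h68_sum_one {r a : ℕ} [NeZero a] (haZ : a ≤ Z r) (I : Finset ℕ) (α : ℕ → ℝ)
    (hα : ∀ m, α m ≠ 0 → Rough r m) :
    ∑ m ∈ I, (α m : ℂ) * (1 : DirichletCharacter ℂ a) m = ((∑ m ∈ I, α m : ℝ) : ℂ) := by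
  push_cast
  refine sum_congr rfl fun m _ => ?_
  by_cases h : α m = 0
  · simp [h]
  · have hc := h68_coprime (Nat.pos_of_ne_zero (NeZero.ne a)) haZ (hα m h)
    have hu : IsUnit ((m : ZMod a)) := (ZMod.isUnit_iff_coprime m a).mpr hc
    rw [MulChar.one_apply hu, mul_one]

open Classical in
lemma h68_one_modulus {r a : ℕ} (ha : 0 < a) (haZ : a ≤ Z r) {c : ℤ} (hc : IsCoprime c (a : ℤ))
    (I J : Finset ℕ) (α β : ℕ → ℝ) (hα : ∀ m, α m ≠ 0 → Rough r m)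
    (hβ : ∀ m, β m ≠ 0 → Rough r m) :
    (Nat.totient a : ℝ) * ∑ m ∈ I, ∑ n ∈ J, α m * β n * cg a c (m * n)
      ≤ (∑ m ∈ I, α m) * (∑ n ∈ J, β n) + ∑ χ : DirichletCharacter ℂ a,
        (if χ = 1 then 0 else ‖∑ m ∈ I, (α m : ℂ) * χ m‖)
          * (if χ = 1 then 0 else ‖∑ n ∈ J, (β n : ℂ) * χ n‖) := by
  haveI : NeZero a := ⟨ha.ne'⟩
  have hu := h68_isUnit hc
  have key : ((((Nat.totient a : ℝ) * ∑ m ∈ I, ∑ n ∈ J, α m * β n * cg a c (m * n) : ℝ)) : ℂ)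
      = ∑ χ : DirichletCharacter ℂ a, χ ((c : ZMod a)⁻¹) *
        ((∑ m ∈ I, (α m : ℂ) * χ m) * ∑ n ∈ J, (β n : ℂ) * χ n) := by
    have h1 : ∀ m n : ℕ, ((Nat.totient a : ℂ)) * (cg a c (m * n) : ℂ)
        = ∑ χ : DirichletCharacter ℂ a, χ ((c : ZMod a)⁻¹) * (χ m * χ n) := by
      intro m n
      have h2 := DirichletCharacter.sum_char_inv_mul_char_eq ℂ hu ((m * n : ℕ) : ZMod a)
      have h3 : ∑ χ : DirichletCharacter ℂ a, χ ((c : ZMod a)⁻¹) * (χ m * χ n)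
          = ∑ χ : DirichletCharacter ℂ a, χ ((c : ZMod a)⁻¹) * χ ((m * n : ℕ) : ZMod a) := by
        refine sum_congr rfl fun χ _ => ?_
        rw [Nat.cast_mul, map_mul]
      rw [h3]
      have h4 : ((c : ZMod a) = ((m * n : ℕ) : ZMod a)) ↔ ((m * n : ℕ) : ℤ) ≡ c [ZMOD a] := by
        rw [eq_comm, ← ZMod.intCast_eq_intCast_iff]
        push_cast
        rfl
      rw [cg]
      by_cases h5 : ((m * n : ℕ) : ℤ) ≡ c [ZMOD a]
      · rw [if_pos h5, Complex.ofReal_one, mul_one]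
        rw [if_pos (h4.mpr h5)] at h2
        rw [← h2]
      · rw [if_neg h5, Complex.ofReal_zero, mul_zero]
        rw [if_neg (fun h => h5 (h4.mp h))] at h2
        rw [← h2]
    push_cast
    rw [mul_sum]
    have h6 : ∀ χ : DirichletCharacter ℂ a, χ ((c : ZMod a)⁻¹) *
        ((∑ m ∈ I, (α m : ℂ) * χ m) * ∑ n ∈ J, (β n : ℂ) * χ n)
        = ∑ m ∈ I, ∑ n ∈ J, (α m : ℂ) * β n * (χ ((c : ZMod a)⁻¹) * (χ m * χ n)) := by
      intro χ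
      rw [sum_mul_sum, mul_sum]
      refine sum_congr rfl fun m _ => ?_
      rw [mul_sum]
      refine sum_congr rfl fun n _ => ?_
      ring
    simp_rw [h6]
    rw [sum_comm]
    refine sum_congr rfl fun m _ => ?_
    rw [sum_comm, mul_sum]
    refine sum_congr rfl fun n _ => ?_
    rw [← mul_sum, ← h1]
    ring
  have key2 := congrArg Complex.re key
  rw [Complex.ofReal_re, Complex.re_sum] at key2
  rw [key2, ← Finset.add_sum_erase _ _ (mem_univ (1 : DirichletCharacter ℂ a))]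
  have e1 : ((1 : DirichletCharacter ℂ a) ((c : ZMod a)⁻¹) *
      ((∑ m ∈ I, (α m : ℂ) * (1 : DirichletCharacter ℂ a) m)
        * ∑ n ∈ J, (β n : ℂ) * (1 : DirichletCharacter ℂ a) n)).re
      = (∑ m ∈ I, α m) * (∑ n ∈ J, β n) := by
    have hinv : IsUnit ((c : ZMod a)⁻¹) := by
      have h := ZMod.mul_inv_of_unit (c : ZMod a) hu
      exact IsUnit.of_mul_eq_one_right _ h
    rw [h68_sum_one haZ I α hα, h68_sum_one haZ J β hβ, MulChar.one_apply hinv, one_mul,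
      ← Complex.ofReal_mul, Complex.ofReal_re]
  rw [e1]
  have e2 : ∑ χ : DirichletCharacter ℂ a,
        (if χ = 1 then 0 else ‖∑ m ∈ I, (α m : ℂ) * χ m‖)
          * (if χ = 1 then 0 else ‖∑ n ∈ J, (β n : ℂ) * χ n‖)
      = ∑ χ ∈ univ.erase (1 : DirichletCharacter ℂ a),
        ‖∑ m ∈ I, (α m : ℂ) * χ m‖ * ‖∑ n ∈ J, (β n : ℂ) * χ n‖ := by
    rw [← Finset.add_sum_erase _ _ (mem_univ (1 : DirichletCharacter ℂ a))]
    rw [if_pos rfl, zero_mul, zero_add]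
    refine sum_congr rfl fun χ hχ => ?_
    have := (mem_erase.mp hχ).1
    rw [if_neg this, if_neg this]
  refine le_trans ?_ (add_le_add le_rfl (le_of_eq ((Eq.symm e2).trans ?_)))
  swap
  · refine sum_congr rfl fun χ _ => ?_
    congr 1 <;> (congr)
  gcongr with χ hχ
  refine (Complex.re_le_norm _).trans ?_
  rw [norm_mul, norm_mul]
  calc ‖χ ((c : ZMod a)⁻¹)‖ * (‖∑ m ∈ I, (α m : ℂ) * χ m‖ * ‖∑ n ∈ J, (β n : ℂ) * χ n‖)
      ≤ 1 * (‖∑ m ∈ I, (α m : ℂ) * χ m‖ * ‖∑ n ∈ J, (β n : ℂ) * χ n‖) := by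
        apply mul_le_mul_of_nonneg_right (DirichletCharacter.norm_le_one χ _)
        positivity
    _ = _ := one_mul _

theorem bilinear_of_LS {C₀ : ℝ} {E₀ : ℕ} (hLS : LSBound C₀ E₀) :
    ∃ C : ℝ, ∃ E : ℕ, 0 < C ∧ ∀ (r x₁ H₁ x₂ H₂ N M : ℕ) (𝒜 : Finset ℕ) (c : ℤ)
    (α β : ℕ → ℝ), Fam 𝒜 N M → (∀ a ∈ 𝒜, IsCoprime c (a : ℤ)) → N ≤ Z r →
    (Z r) ^ E * N ^ 5 ≤ H₁ → (Z r) ^ E * N ^ 5 ≤ H₂ →
    (∀ m, α m ≠ 0 → Rough r m) → (∀ m, β m ≠ 0 → Rough r m) →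
    ∑ a ∈ 𝒜, (Nat.totient a : ℝ) * ∑ m ∈ Ioc x₁ (x₁ + H₁), ∑ n ∈ Ioc x₂ (x₂ + H₂),
      α m * β n * cg a c (m * n)
      ≤ #𝒜 * ((∑ m ∈ Ioc x₁ (x₁ + H₁), α m) * ∑ n ∈ Ioc x₂ (x₂ + H₂), β n)
        + C * M * (Real.sqrt H₁ * Real.sqrt H₂ / Real.log (Z r))
          * (Real.sqrt (∑ m ∈ Ioc x₁ (x₁ + H₁), α m ^ 2)
            * Real.sqrt (∑ n ∈ Ioc x₂ (x₂ + H₂), β n ^ 2)) := by
  classical
  obtain ⟨hC, hLS⟩ := hLS
  refine ⟨C₀, E₀, hC, ?_⟩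
  intro r x₁ H₁ x₂ H₂ N M 𝒜 c α β hF hc hN hH₁ hH₂ hα hβ
  set I := Ioc x₁ (x₁ + H₁) with hI
  set J := Ioc x₂ (x₂ + H₂) with hJ
  have hlog : 0 < Real.log (Z r) := Real.log_pos (by exact_mod_cast (two_le_Z r))
  have hM : (0 : ℝ) < M := by exact_mod_cast hF.one_le
  have step1 : ∑ a ∈ 𝒜, (Nat.totient a : ℝ) * ∑ m ∈ I, ∑ n ∈ J, α m * β n * cg a c (m * n)
      ≤ ∑ a ∈ 𝒜, ((∑ m ∈ I, α m) * (∑ n ∈ J, β n) + ∑ χ : DirichletCharacter ℂ a,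
        (if χ = 1 then 0 else ‖∑ m ∈ I, (α m : ℂ) * χ m‖)
          * (if χ = 1 then 0 else ‖∑ n ∈ J, (β n : ℂ) * χ n‖)) := by
    refine sum_le_sum fun a ha => ?_
    exact h68_one_modulus (hF.pos a ha) ((hF.le a ha).trans hN) (hc a ha) I J α β hα hβ
  refine step1.trans ?_
  rw [sum_add_distrib, sum_const, nsmul_eq_mul]
  gcongr
  have l1 := hLS r x₁ H₁ N M 𝒜 (fun m => (α m : ℂ)) hF hH₁
    (fun m _ h => hα m (fun h0 => h (by simp [h0])))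
  have l2 := hLS r x₂ H₂ N M 𝒜 (fun m => (β m : ℂ)) hF hH₂
    (fun m _ h => hβ m (fun h0 => h (by simp [h0])))
  have n1 : ∀ γ : ℕ → ℝ, ∀ K : Finset ℕ, ∑ m ∈ K, ‖(γ m : ℂ)‖ ^ 2 = ∑ m ∈ K, γ m ^ 2 := by
    intro γ K
    refine sum_congr rfl fun m _ => ?_
    rw [Complex.norm_real, Real.norm_eq_abs, sq_abs]
  simp only [n1] at l1 l2
  rw [Finset.sum_sigma'] at l1 l2 ⊢
  have cs := Real.sum_mul_le_sqrt_mul_sqrt
    (𝒜.sigma (fun a => (univ : Finset (DirichletCharacter ℂ a))))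
    (fun x => (if x.2 = 1 then 0 else ‖∑ m ∈ I, (α m : ℂ) * x.2 m‖))
    (fun x => (if x.2 = 1 then 0 else ‖∑ n ∈ J, (β n : ℂ) * x.2 n‖))
  refine cs.trans ?_
  have s1 : ∀ (γ : ℕ → ℝ) (K : Finset ℕ) (x : (a : ℕ) × DirichletCharacter ℂ a),
      ((if x.2 = 1 then (0 : ℝ) else ‖∑ m ∈ K, (γ m : ℂ) * x.2 m‖)) ^ 2
      = (if x.2 = 1 then (0 : ℝ) else ‖∑ m ∈ K, (γ m : ℂ) * x.2 m‖ ^ 2) := by
    intro γ K x
    split_ifs <;> simp
  simp only [s1]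
  have b1 := Real.sqrt_le_sqrt l1
  have b2 := Real.sqrt_le_sqrt l2
  refine (mul_le_mul b1 b2 (Real.sqrt_nonneg _) (Real.sqrt_nonneg _)).trans (le_of_eq ?_)
  have hA : 0 ≤ ∑ m ∈ I, α m ^ 2 := sum_nonneg fun m _ => sq_nonneg _
  have hB : 0 ≤ ∑ n ∈ J, β n ^ 2 := sum_nonneg fun m _ => sq_nonneg _
  have hCM : 0 ≤ C₀ * M := by positivity
  have c1 : ∀ (H : ℕ) (S : ℝ), 0 ≤ S → Real.sqrt (C₀ * M * (H / Real.log (Z r)) * S)
      = Real.sqrt (C₀ * M) * (Real.sqrt H / Real.sqrt (Real.log (Z r))) * Real.sqrt S := by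
    intro H S hS
    rw [Real.sqrt_mul (by positivity), Real.sqrt_mul hCM, Real.sqrt_div (Nat.cast_nonneg H)]
  rw [c1 H₁ _ hA, c1 H₂ _ hB]
  have q1 : Real.sqrt (C₀ * M) * Real.sqrt (C₀ * M) = C₀ * M := Real.mul_self_sqrt hCM
  have q2 : Real.sqrt (Real.log (Z r)) * Real.sqrt (Real.log (Z r)) = Real.log (Z r) :=
    Real.mul_self_sqrt hlog.le
  have q3 : Real.sqrt (Real.log (Z r)) ≠ 0 := (Real.sqrt_pos.mpr hlog).ne'
  calc Real.sqrt (C₀ * M) * (Real.sqrt H₁ / Real.sqrt (Real.log (Z r)))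
        * Real.sqrt (∑ m ∈ I, α m ^ 2) * (Real.sqrt (C₀ * M)
        * (Real.sqrt H₂ / Real.sqrt (Real.log (Z r))) * Real.sqrt (∑ n ∈ J, β n ^ 2))
      = (Real.sqrt (C₀ * M) * Real.sqrt (C₀ * M)) * ((Real.sqrt H₁ * Real.sqrt H₂)
        / (Real.sqrt (Real.log (Z r)) * Real.sqrt (Real.log (Z r))))
        * (Real.sqrt (∑ m ∈ I, α m ^ 2) * Real.sqrt (∑ n ∈ J, β n ^ 2)) := by
          field_simp
    _ = _ := by rw [q1, q2]

end Pool.Agent.helper96.Slope
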