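import Pool.Agent.helper96.Slope.Defs

set_option linter.all false

/-! modules CS and MC of MP_bf63dc_nt.SlopeTuples: incomplete character sums and the majorant
against a character. -/

namespace Pool.Agent.helper96.Slope

open Finset Pool.Agent.Lib.BrunHooley

lemma h68_sum_period {q : ℕ} [NeZero q] (f : ZMod q → ℂ) (y : ℕ) :
    ∑ m ∈ Ioc y (y + q), f (m : ZMod q) = ∑ x : ZMod q, f x := by
  classical
  have hinj : Set.InjOn (fun m : ℕ => (m : ZMod q)) (Ioc y (y + q)) := by
    intro a ha b hb hab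
    simp only [coe_Ioc, Set.mem_Ioc] at ha hb
    have h : a ≡ b [MOD q] := (ZMod.natCast_eq_natCast_iff a b q).mp hab
    rcases le_total a b with hle | hle
    · have h1 := (Nat.modEq_iff_dvd' hle).mp h
      rcases Nat.eq_zero_or_pos (b - a) with h0 | h0
      · omega
      · have := Nat.le_of_dvd h0 h1
        omega
    · have h1 := (Nat.modEq_iff_dvd' hle).mp h.symm
      rcases Nat.eq_zero_or_pos (a - b) with h0 | h0
      · omega
      · have := Nat.le_of_dvd h0 h1
        omega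
  have himg : (Ioc y (y + q)).image (fun m : ℕ => (m : ZMod q)) = univ := by
    apply Finset.eq_univ_of_card
    rw [card_image_of_injOn hinj, Nat.card_Ioc, ZMod.card]
    omega
  rw [← himg, sum_image hinj]

lemma h68_interval {q : ℕ} [NeZero q] (χ : DirichletCharacter ℂ q) (hχ : χ ≠ 1) (L y : ℕ) :
    ‖∑ m ∈ Ioc y (y + L), χ m‖ ≤ q := by
  induction L using Nat.strong_induction_on generalizing y with
  | _ L ih =>
    by_cases hL : L ≤ q
    · calc ‖∑ m ∈ Ioc y (y + L), χ m‖ ≤ ∑ m ∈ Ioc y (y + L), ‖χ m‖ := norm_sum_le _ _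
        _ ≤ ∑ _m ∈ Ioc y (y + L), (1 : ℝ) :=
            sum_le_sum fun m _ => DirichletCharacter.norm_le_one χ _
        _ = L := by simp
        _ ≤ q := by exact_mod_cast hL
    · push Not at hL
      have hq : 0 < q := Nat.pos_of_ne_zero (NeZero.ne q)
      have e : ∑ m ∈ Ioc y (y + L), χ m
          = ∑ m ∈ Ioc y (y + q), χ m + ∑ m ∈ Ioc (y + q) (y + q + (L - q)), χ m := by
        have : y + q + (L - q) = y + L := by omega
        rw [this]
        exact (Finset.sum_Ioc_consecutive (fun m : ℕ => χ (m : ZMod q)) (by omega) (by omega)).symm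
      rw [e, h68_sum_period (fun x => χ x) y, MulChar.sum_eq_zero_of_ne_one hχ, zero_add]
      exact ih (L - q) (by omega) (y + q)

theorem char_interval (x H d q : ℕ) [NeZero q] (χ : DirichletCharacter ℂ q) (hχ : χ ≠ 1) :
    ‖∑ m ∈ Ioc x (x + H) with d ∣ m, χ m‖ ≤ q := by
  classical
  rcases Nat.eq_zero_or_pos d with rfl | hd
  · have : (Ioc x (x + H)).filter (fun m => 0 ∣ m) = ∅ := by
      ext m
      simp only [mem_filter, mem_Ioc, zero_dvd_iff, notMem_empty, iff_false]
      omega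
    rw [this]
    simp
  · have hle : x / d ≤ (x + H) / d := Nat.div_le_div_right (Nat.le_add_right _ _)
    have e : (Ioc x (x + H)).filter (fun m => d ∣ m)
        = (Ioc (x / d) (x / d + ((x + H) / d - x / d))).image (fun m => d * m) := by
      rw [Nat.add_sub_cancel' hle]
      ext m
      simp only [mem_filter, mem_Ioc, mem_image]
      constructor
      · rintro ⟨⟨h1, h2⟩, k, rfl⟩
        refine ⟨k, ⟨?_, ?_⟩, rfl⟩
        · rw [Nat.div_lt_iff_lt_mul hd]
          linarith [mul_comm d k]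
        · rw [Nat.le_div_iff_mul_le hd]
          linarith [mul_comm d k]
      · rintro ⟨k, ⟨h1, h2⟩, rfl⟩
        rw [Nat.div_lt_iff_lt_mul hd] at h1
        rw [Nat.le_div_iff_mul_le hd] at h2
        exact ⟨⟨by linarith [mul_comm d k], by linarith [mul_comm d k]⟩, dvd_mul_right _ _⟩
    rw [e, sum_image (fun a _ b _ hab => Nat.eq_of_mul_eq_mul_left hd hab)]
    have e2 : ∑ m ∈ Ioc (x / d) (x / d + ((x + H) / d - x / d)), χ ((d * m : ℕ) : ZMod q)
        = χ (d : ZMod q) * ∑ m ∈ Ioc (x / d) (x / d + ((x + H) / d - x / d)), χ (m : ZMod q) := by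
      rw [mul_sum]
      refine sum_congr rfl fun m _ => ?_
      rw [Nat.cast_mul, map_mul]
    rw [e2, norm_mul]
    calc ‖χ (d : ZMod q)‖ * ‖∑ m ∈ Ioc (x / d) (x / d + ((x + H) / d - x / d)), χ (m : ZMod q)‖
        ≤ 1 * q := by
          apply mul_le_mul (DirichletCharacter.norm_le_one χ _) (h68_interval χ hχ _ _)
            (norm_nonneg _) zero_le_one
      _ = q := one_mul _

lemma h68_prod_ind {D : Finset ℕ} (hD : ∀ p ∈ D, p.Prime) (n : ℕ) :
    ∏ p ∈ D, (if p ∣ n then (1 : ℝ) else 0) = if (∏ p ∈ D, p) ∣ n then 1 else 0 := by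
  classical
  by_cases h : ∀ p ∈ D, p ∣ n
  · have h2 : (∏ p ∈ D, p) ∣ n := Finset.prod_primes_dvd n (fun p hp => (hD p hp).prime) h
    rw [if_pos h2]
    exact prod_eq_one fun p hp => if_pos (h p hp)
  · have h2 : ¬ (∏ p ∈ D, p) ∣ n := fun h3 => h fun p hp => (dvd_prod_of_mem _ hp).trans h3
    rw [if_neg h2]
    push Not at h
    obtain ⟨p, hp, hpn⟩ := h
    exact prod_eq_zero hp (if_neg hpn)

lemma h68_err (r : ℕ) :
    ∏ j ∈ range (r + 1), ∑ i ∈ range (bpar 9 r j + 1), es (blk j) (fun _ => (1 : ℝ)) i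
      ≤ (Z r : ℝ) ^ 40 := by
  calc ∏ j ∈ range (r + 1), ∑ i ∈ range (bpar 9 r j + 1), es (blk j) (fun _ => (1 : ℝ)) i
      ≤ ∏ j ∈ range (r + 1), (1 + ∑ p ∈ blk j, (1 : ℝ)) ^ bpar 9 r j := by
        refine prod_le_prod (fun j _ => sum_nonneg fun i _ => es_nonneg _ _ (fun _ _ => zero_le_one) _)
          (fun j _ => sum_es_le _ _ (fun _ _ => zero_le_one) _)
    _ ≤ ∏ j ∈ range (r + 1), ((Z j : ℝ) ^ 1) ^ bpar 9 r j := by
        refine prod_le_prod (fun j _ => ?_) (fun j _ => ?_)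
        · have : 0 ≤ ∑ p ∈ blk j, (1 : ℝ) := sum_nonneg fun p _ => zero_le_one
          positivity
        · have : 0 ≤ ∑ p ∈ blk j, (1 : ℝ) := sum_nonneg fun p _ => zero_le_one
          gcongr
          exact err_le 1 (fun _ => 1) (fun _ => by norm_num) j
    _ = (2 : ℝ) ^ (1 * ∑ j ∈ range (r + 1), 2 ^ j * (2 * (9 + (r - j)))) := by
        rw [mul_sum, ← prod_pow_eq_pow_sum]
        refine prod_congr rfl fun j _ => ?_
        rw [Z, bpar]
        push_cast
        rw [← pow_mul, ← pow_mul]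
        congr 1
        ring
    _ ≤ (2 : ℝ) ^ (1 * (2 ^ r * (4 * 9 + 4))) := by
        refine pow_le_pow_right₀ (by norm_num) ?_
        exact Nat.mul_le_mul_left _ (weighted_sum_le 9 r)
    _ = _ := by
        rw [Z]; push_cast; rw [← pow_mul]; congr 1; ring

lemma h68_maj_real (r x H q : ℕ) [NeZero q] (f : ℕ → ℝ)
    (hf : ∀ d : ℕ, |∑ m ∈ Ioc x (x + H) with d ∣ m, f m| ≤ q) :
    |∑ m ∈ Ioc x (x + H), maj r m * f m| ≤ q * (Z r : ℝ) ^ 40 := by
  classical
  have hq : (0 : ℝ) < q := by exact_mod_cast Nat.pos_of_ne_zero (NeZero.ne q)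
  have key := sum_prod_ts_le (Ioc x (x + H)) (fun n => f n / q)
    (fun p n => if p ∣ n then (1 : ℝ) else 0) 0 (fun _ => 0) (fun _ => 1) blk (bpar 9 r)
    (range (r + 1)) (Nat.primesLE (Z r)) ?_ (fun j _ k _ => blk_pairwise j k) ?_ ∅ (by simp)
    (by simp)
  · simp only [prod_empty, mul_one, zero_mul, sub_zero, one_mul] at key
    have key2 := key.trans (h68_err r)
    have e : ∑ m ∈ Ioc x (x + H), f m / q * ∏ j ∈ range (r + 1),
        ts (blk j) (fun p => if p ∣ m then (1 : ℝ) else 0) (bpar 9 r j)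
        = (∑ m ∈ Ioc x (x + H), maj r m * f m) / q := by
      rw [sum_div]
      refine sum_congr rfl fun m _ => ?_
      rw [maj]
      ring
    rw [e, abs_div, abs_of_pos hq, div_le_iff₀ hq] at key2
    linarith [mul_comm ((Z r : ℝ) ^ 40) (q : ℝ)]
  · intro D hD
    have hDp : ∀ p ∈ D, p.Prime := fun p hp => (Nat.mem_primesLE.mp (hD hp)).2
    simp only [prod_const_one, zero_mul, sub_zero]
    have e : ∑ n ∈ Ioc x (x + H), f n / q * ∏ p ∈ D, (if p ∣ n then (1 : ℝ) else 0)
        = (∑ n ∈ Ioc x (x + H) with (∏ p ∈ D, p) ∣ n, f n) / q := by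
      rw [sum_div, sum_filter]
      refine sum_congr rfl fun n _ => ?_
      rw [h68_prod_ind hDp]
      split_ifs <;> simp
    rw [e, abs_div, abs_of_pos hq, div_le_one hq]
    exact hf _
  · intro j hj
    rw [← biUnion_blk]
    exact subset_biUnion_of_mem blk hj

theorem maj_char : ∃ E : ℕ, ∀ (r x H q : ℕ) [NeZero q] (χ : DirichletCharacter ℂ q), χ ≠ 1 →
    ‖∑ m ∈ Ioc x (x + H), (maj r m : ℂ) * χ m‖ ≤ 2 * q * (Z r : ℝ) ^ E := by
  refine ⟨40, ?_⟩
  intro r x H q _ χ hχ
  have h1 : |∑ m ∈ Ioc x (x + H), maj r m * (χ m).re| ≤ q * (Z r : ℝ) ^ 40 := by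
    refine h68_maj_real r x H q _ fun d => ?_
    have := (Complex.abs_re_le_norm _).trans (char_interval x H d q χ hχ)
    rwa [Complex.re_sum] at this
  have h2 : |∑ m ∈ Ioc x (x + H), maj r m * (χ m).im| ≤ q * (Z r : ℝ) ^ 40 := by
    refine h68_maj_real r x H q _ fun d => ?_
    have := (Complex.abs_im_le_norm _).trans (char_interval x H d q χ hχ)
    rwa [Complex.im_sum] at this
  refine (Complex.norm_le_abs_re_add_abs_im _).trans ?_
  have e1 : (∑ m ∈ Ioc x (x + H), (maj r m : ℂ) * χ m).re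
      = ∑ m ∈ Ioc x (x + H), maj r m * (χ m).re := by
    rw [Complex.re_sum]
    refine sum_congr rfl fun m _ => ?_
    rw [Complex.re_ofReal_mul]
  have e2 : (∑ m ∈ Ioc x (x + H), (maj r m : ℂ) * χ m).im
      = ∑ m ∈ Ioc x (x + H), maj r m * (χ m).im := by
    rw [Complex.im_sum]
    refine sum_congr rfl fun m _ => ?_
    rw [Complex.im_ofReal_mul]
  rw [e1, e2]
  linarith

end Pool.Agent.helper96.Slope
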